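import Pool.Agent.H979.BK.Stm

/-!
# Project BK (helper979, MP_1e2081_pr): smoothing, `S_SMOOTH`
-/

set_option autoImplicit false

open Filter Topology Finset Pool.Agent.H979.BK

namespace Pool.Agent.H336

namespace BKS

theorem flow_comp {d n : ℕ} (u : Ball d n → Fin d) (ρ : Equiv.Perm (Ball d n))
    (hρ : ∀ b, (ρ b).1 = b.1) (i l : Fin d) : flow (u ∘ ρ) i l = flow u i l := by
  unfold flow
  refine Finset.card_bij (fun b _ => ρ b) ?_ ?_ ?_
  · intro b hb
    rw [mem_filter] at hb ⊢
    refine ⟨mem_univ _, ?_, hb.2.2⟩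
    rw [hρ]; exact hb.2.1
  · intro a _ b _ h
    exact ρ.injective h
  · intro b hb
    rw [mem_filter] at hb
    refine ⟨ρ.symm b, ?_, by simp⟩
    rw [mem_filter]
    refine ⟨mem_univ _, ?_, ?_⟩
    · have := hρ (ρ.symm b)
      rw [Equiv.apply_symm_apply] at this
      rw [← this]; exact hb.2.1
    · change u (ρ (ρ.symm b)) = l
      rw [Equiv.apply_symm_apply]; exact hb.2.2

theorem cnt_comp {d n : ℕ} (c u : Ball d n → Fin d) (ρ : Equiv.Perm (Ball d n)) :
    cnt c (u ∘ ρ) = cnt (c ∘ ρ.symm) u := by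
  funext l j
  unfold cnt
  refine Finset.card_bij (fun b _ => ρ b) ?_ ?_ ?_
  · intro b hb
    rw [mem_filter] at hb ⊢
    refine ⟨mem_univ _, hb.2.1, ?_⟩
    change c (ρ.symm (ρ b)) = j
    rw [Equiv.symm_apply_apply]; exact hb.2.2
  · intro a _ b _ h
    exact ρ.injective h
  · intro b hb
    rw [mem_filter] at hb
    refine ⟨ρ.symm b, ?_, by simp⟩
    rw [mem_filter]
    refine ⟨mem_univ _, ?_, hb.2.2⟩
    change u (ρ (ρ.symm b)) = l
    rw [Equiv.apply_symm_apply]; exact hb.2.1

/-- an injective enumeration of `R` balls of a large set -/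
theorem exists_enum {α : Type} [DecidableEq α] (S : Finset α) (R : ℕ) (h : R ≤ S.card) :
    ∃ p : Fin R → α, Function.Injective p ∧ ∀ r, p r ∈ S := by
  have h1 : Fintype.card (Fin R) ≤ Fintype.card {x // x ∈ S} := by
    rw [Fintype.card_fin, Fintype.card_coe]; exact h
  obtain ⟨e⟩ := Function.Embedding.nonempty_of_card_le h1
  exact ⟨fun r => (e r).1, fun a b hab => e.injective (Subtype.ext hab), fun r => (e r).2⟩

theorem ell_nonneg {d : ℕ} (x y : Fin d → Fin d → ℕ) : 0 ≤ ell x y :=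
  Finset.sum_nonneg fun _ _ => Finset.sum_nonneg fun _ _ => abs_nonneg _

open Classical in
/-- the indicator of large flows -/
noncomputable def gg {d n : ℕ} (α : ℝ) (u : Ball d n → Fin d) : ℝ :=
  if ∀ i l, α * n ≤ flow u i l then 1 else 0

theorem gg_nonneg {d n : ℕ} (α : ℝ) (u : Ball d n → Fin d) : 0 ≤ gg α u := by
  unfold gg
  split_ifs
  · exact zero_le_one
  · exact le_rfl

theorem gg_le_one {d n : ℕ} (α : ℝ) (u : Ball d n → Fin d) : gg α u ≤ 1 := by
  unfold gg
  split_ifs
  · exact le_rfl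
  · exact zero_le_one

theorem gg_comp {d n : ℕ} (α : ℝ) (u : Ball d n → Fin d) (ρ : Equiv.Perm (Ball d n))
    (hρ : ∀ b, (ρ b).1 = b.1) : gg α (u ∘ ρ) = gg α u := by
  unfold gg
  simp only [flow_comp u ρ hρ]

open Classical in
/-- one swap -/
theorem one_swap (h1 : S_A1) (h2 : S_A2) (hMX : S_MX) (hSM : S_SM1) (d : ℕ) (hd : 2 ≤ d)
    (α : ℝ) (hα : 0 < α) :
    ∃ C1 : ℝ, 0 < C1 ∧ ∀ (n k : ℕ) (μ : Equiv.Perm (Fin d) → ℝ), IsProb μ → k ≤ n → 8 * d ≤ n →
      ∀ (m : ℕ) (c : Ball d n → Fin d) (b1 b2 : Ball d n), c b1 ≠ c b2 →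
      (∀ i j, 3 * (n : ℝ) / (8 * d) ≤ cnt c Prod.fst i j) →
      ∀ f : (Fin d → Fin d → ℕ) → ℝ, (∀ x, 0 ≤ f x ∧ f x ≤ 1) →
      |E μ k m (fun u => gg α u * (f (cnt c u) - f (cnt (c ∘ Equiv.swap b1 b2) u)))| ≤
        C1 / √(n : ℝ) := by
  have hdR : (2 : ℝ) ≤ d := by exact_mod_cast hd
  obtain ⟨C, c0, hC, hc0, hmx⟩ := hMX d α (1 / (8 * d)) hα (by positivity)
  refine ⟨2 / √c0 + 2 * (d : ℝ) ^ 2 * C, by positivity, ?_⟩
  intro n k μ hμ hk hn m c b1 b2 hcb hcnt f hf
  have hn8 : 8 * (d : ℝ) ≤ n := by exact_mod_cast hn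
  have hn1 : 1 ≤ n := by omega
  have hnR : (1 : ℝ) ≤ n := by exact_mod_cast hn1
  have hn0 : (0 : ℝ) < n := by linarith
  have hsn : (1 : ℝ) ≤ √(n : ℝ) := by
    rw [show (1 : ℝ) = √1 from Real.sqrt_one.symm]
    exact Real.sqrt_le_sqrt hnR
  have hsn0 : 0 < √(n : ℝ) := by linarith
  by_cases hb : b1.1 = b2.1
  · -- the same urn
    have hρ : ∀ b, ((Equiv.swap b1 b2) b).1 = b.1 := by
      intro b
      by_cases e1 : b = b1
      · rw [e1, Equiv.swap_apply_left]; exact hb.symm
      · by_cases e2 : b = b2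
        · rw [e2, Equiv.swap_apply_right]; exact hb
        · rw [Equiv.swap_apply_of_ne_of_ne e1 e2]
    have h3 := (h2 d n k μ m).1 (fun u => gg α u * f (cnt c u)) (Equiv.swap b1 b2) hρ
    obtain ⟨p, hp0, hp1, -, hpE⟩ := h1 d n k μ hμ hk m
    rw [hpE, hpE] at h3
    rw [hpE]
    have h4 : ∑ u, p u * (gg α u * (f (cnt c u) - f (cnt (c ∘ Equiv.swap b1 b2) u))) = 0 := by
      have h5 : ∑ u, p u * (gg α u * (f (cnt c u) - f (cnt (c ∘ Equiv.swap b1 b2) u))) =
          ∑ u, p u * (gg α u * f (cnt c u)) -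
            ∑ u, p u * (gg α u * f (cnt (c ∘ Equiv.swap b1 b2) u)) := by
        rw [← Finset.sum_sub_distrib]
        exact Finset.sum_congr rfl (fun u _ => by ring)
      rw [h5, sub_eq_zero, ← h3]
      refine Finset.sum_congr rfl (fun u _ => ?_)
      rw [gg_comp α u _ hρ, cnt_comp, Equiv.symm_swap]
    rw [h4, abs_zero]
    positivity
  · -- different urns
    set i := b1.1 with hi
    obtain ⟨R, hR1, hR2⟩ : ∃ R : ℕ, (n : ℝ) / (8 * d) ≤ R ∧ (R : ℝ) < n / (8 * d) + 1 :=
      ⟨⌈(n : ℝ) / (8 * d)⌉₊, Nat.le_ceil _, Nat.ceil_lt_add_one (by positivity)⟩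
    have hnd : 1 ≤ (n : ℝ) / (8 * d) := by
      rw [le_div_iff₀ (by positivity)]; linarith
    have hnd2 : (n : ℝ) / (8 * d) ≤ n / 16 := by
      apply div_le_div_of_nonneg_left hn0.le (by norm_num) (by linarith)
    have h3nd : 3 * (n : ℝ) / (8 * d) = 3 * (n / (8 * d)) := by ring
    -- the balls
    have hcard : ∀ j, R + 1 ≤ (univ.filter fun b : Ball d n => b.1 = i ∧ c b = j).card := by
      intro j
      have e1 := hcnt i j
      rw [h3nd] at e1
      have e2 : ((R : ℝ) + 1) < cnt c Prod.fst i j + 1 := by linarith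
      have e3 : R + 1 < cnt c Prod.fst i j + 1 := by exact_mod_cast e2
      unfold cnt at e3
      omega
    obtain ⟨p, hpinj, hp⟩ := exists_enum
      ((univ.filter fun b : Ball d n => b.1 = i ∧ c b = c b1).erase b1) R (by
        rw [Finset.card_erase_of_mem (by
          rw [mem_filter]; exact ⟨mem_univ _, rfl, rfl⟩)]
        have := hcard (c b1)
        omega)
    obtain ⟨q, hqinj, hq⟩ := exists_enum
      (univ.filter fun b : Ball d n => b.1 = i ∧ c b = c b2) R (by
        have := hcard (c b2)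
        omega)
    have hp' : ∀ r, p r ≠ b1 ∧ (p r).1 = i ∧ c (p r) = c b1 := by
      intro r
      have := hp r
      rw [Finset.mem_erase, mem_filter] at this
      exact ⟨this.1, this.2.2.1, this.2.2.2⟩
    have hq' : ∀ r, (q r).1 = i ∧ c (q r) = c b2 := by
      intro r
      have := hq r
      rw [mem_filter] at this
      exact this.2
    have hsm := hSM d n k μ hμ hk m R c b1 b2 p q (gg α) f hb hcb hpinj hqinj
      (fun r => ⟨(hp' r).2.1, (hq' r).1, (hp' r).1, (hp' r).2.2, (hq' r).2⟩)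
      (gg_nonneg α) (fun ρ hρ u => gg_comp α u ρ hρ) hf
    have hmx' : ∀ l l' : Fin d, _ := fun l l' => hmx n k μ hμ hk hn1 m R i l l' p q
      (by
        calc 1 / (8 * (d : ℝ)) * n = n / (8 * d) := by ring
          _ ≤ R := hR1)
      (by
        have : (2 * (R : ℝ)) < n := by nlinarith
        have : 2 * R < n := by exact_mod_cast this
        omega)
      hpinj hqinj
      (fun r s h => hcb (by rw [← (hp' r).2.2, h, (hq' s).2]))
      (fun r => ⟨(hp' r).2.1, (hq' r).1⟩)
    refine hsm.trans ?_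
    obtain ⟨w, hw0, hw1, -, hwE⟩ := h1 d n k μ hμ hk m
    rw [hwE]
    have hsc : 0 < √c0 := Real.sqrt_pos.2 hc0
    -- pointwise bound
    have hpt : ∀ u : Ball d n → Fin d, w u * (gg α u * (if u b1 = u b2 then 0 else
        2 / √(((univ.filter fun r => (u (p r) = u b1 ∧ u (q r) = u b2)).card : ℝ) + 1))) ≤
        w u * (2 / √(c0 * n)) + ∑ l, ∑ l', 2 * (w u * (if (∀ i' l'', α * n ≤ flow u i' l'') ∧
          ((univ.filter fun r => (u (p r) = l ∧ u (q r) = l')).card : ℝ) < c0 * n then 1 else 0)) := by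
      intro u
      have hsum0 : ∀ l l' : Fin d, 0 ≤ 2 * (w u * (if (∀ i' l'', α * n ≤ flow u i' l'') ∧
          ((univ.filter fun r => (u (p r) = l ∧ u (q r) = l')).card : ℝ) < c0 * n then (1 : ℝ) else 0)) := by
        intro l l'
        have := hw0 u
        split_ifs <;> positivity
      have hS0 : 0 ≤ ∑ l, ∑ l', 2 * (w u * (if (∀ i' l'', α * n ≤ flow u i' l'') ∧
          ((univ.filter fun r => (u (p r) = l ∧ u (q r) = l')).card : ℝ) < c0 * n then (1 : ℝ) else 0)) :=
        Finset.sum_nonneg fun l _ => Finset.sum_nonneg fun l' _ => hsum0 l l'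
      have hw0' := hw0 u
      have hA0 : 0 ≤ w u * (2 / √(c0 * n)) := by positivity
      by_cases hub : u b1 = u b2
      · rw [if_pos hub, mul_zero, mul_zero]
        linarith
      rw [if_neg hub]
      by_cases hgu : ∀ i' l'', α * n ≤ flow u i' l''
      · set M := (univ.filter fun r => (u (p r) = u b1 ∧ u (q r) = u b2)).card with hM
        by_cases hMc : (M : ℝ) < c0 * n
        · -- the bad event
          have e1 : w u * (gg α u * (2 / √((M : ℝ) + 1))) ≤ 2 * w u := by
            have e2 : 2 / √((M : ℝ) + 1) ≤ 2 := by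
              rw [div_le_iff₀ (Real.sqrt_pos.2 (by positivity))]
              have : (1 : ℝ) ≤ √((M : ℝ) + 1) := by
                rw [show (1 : ℝ) = √1 from Real.sqrt_one.symm]
                exact Real.sqrt_le_sqrt (by
                  have : (0 : ℝ) ≤ M := Nat.cast_nonneg _
                  rw [Real.sqrt_one]
                  linarith)
              linarith
            have e3 : 0 ≤ 2 / √((M : ℝ) + 1) := by positivity
            have e4 := gg_le_one α u
            have e5 := gg_nonneg α u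
            calc w u * (gg α u * (2 / √((M : ℝ) + 1))) ≤ w u * (1 * 2) := by
                  apply mul_le_mul_of_nonneg_left _ hw0'
                  exact mul_le_mul e4 e2 e3 zero_le_one
              _ = 2 * w u := by ring
          have e6 : 2 * w u ≤ ∑ l, ∑ l', 2 * (w u * (if (∀ i' l'', α * n ≤ flow u i' l'') ∧
              ((univ.filter fun r => (u (p r) = l ∧ u (q r) = l')).card : ℝ) < c0 * n then (1 : ℝ) else 0)) := by
            have e7 := Finset.single_le_sum (f := fun l => ∑ l', 2 * (w u * (if (∀ i' l'', α * n ≤ flow u i' l'') ∧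
              ((univ.filter fun r => (u (p r) = l ∧ u (q r) = l')).card : ℝ) < c0 * n then (1 : ℝ) else 0)))
              (fun l _ => Finset.sum_nonneg fun l' _ => hsum0 l l') (mem_univ (u b1))
            have e8 := Finset.single_le_sum (f := fun l' => 2 * (w u * (if (∀ i' l'', α * n ≤ flow u i' l'') ∧
              ((univ.filter fun r => (u (p r) = u b1 ∧ u (q r) = l')).card : ℝ) < c0 * n then (1 : ℝ) else 0)))
              (fun l' _ => hsum0 (u b1) l') (mem_univ (u b2))
            refine le_trans ?_ (e8.trans e7)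
            rw [if_pos ⟨hgu, hMc⟩, mul_one]
          linarith
        · -- the good event
          push Not at hMc
          have e1 : 2 / √((M : ℝ) + 1) ≤ 2 / √(c0 * n) := by
            apply div_le_div_of_nonneg_left (by norm_num) (Real.sqrt_pos.2 (by positivity))
            exact Real.sqrt_le_sqrt (by linarith)
          have e3 : 0 ≤ 2 / √((M : ℝ) + 1) := by positivity
          have e4 := gg_le_one α u
          have e5 := gg_nonneg α u
          have e6 : w u * (gg α u * (2 / √((M : ℝ) + 1))) ≤ w u * (2 / √(c0 * n)) := by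
            apply mul_le_mul_of_nonneg_left _ hw0'
            calc gg α u * (2 / √((M : ℝ) + 1)) ≤ 1 * (2 / √(c0 * n)) :=
                  mul_le_mul e4 e1 e3 zero_le_one
              _ = _ := one_mul _
          linarith
      · have e1 : gg α u = 0 := by
          unfold gg
          rw [if_neg hgu]
        rw [e1, zero_mul, mul_zero]
        linarith
    calc ∑ u, w u * (gg α u * (if u b1 = u b2 then 0 else
        2 / √(((univ.filter fun r => (u (p r) = u b1 ∧ u (q r) = u b2)).card : ℝ) + 1)))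
        ≤ ∑ u, (w u * (2 / √(c0 * n)) + ∑ l, ∑ l', 2 * (w u * (if (∀ i' l'', α * n ≤ flow u i' l'') ∧
          ((univ.filter fun r => (u (p r) = l ∧ u (q r) = l')).card : ℝ) < c0 * n then (1 : ℝ) else 0))) :=
          Finset.sum_le_sum fun u _ => hpt u
      _ = 2 / √(c0 * n) + ∑ l, ∑ l', 2 * ∑ u, (w u * (if (∀ i' l'', α * n ≤ flow u i' l'') ∧
          ((univ.filter fun r => (u (p r) = l ∧ u (q r) = l')).card : ℝ) < c0 * n then (1 : ℝ) else 0)) := by
          rw [Finset.sum_add_distrib, ← Finset.sum_mul, hw1, one_mul]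
          congr 1
          rw [Finset.sum_comm]
          refine Finset.sum_congr rfl (fun l _ => ?_)
          rw [Finset.sum_comm]
          refine Finset.sum_congr rfl (fun l' _ => ?_)
          rw [Finset.mul_sum]
      _ ≤ 2 / √(c0 * n) + ∑ l : Fin d, ∑ l' : Fin d, 2 * (C / n) := by
          apply add_le_add le_rfl
          refine Finset.sum_le_sum (fun l _ => Finset.sum_le_sum (fun l' _ => ?_))
          have e1 := hmx' l l'
          rw [hwE] at e1
          linarith
      _ = 2 / √c0 / √(n : ℝ) + 2 * (d : ℝ) ^ 2 * C / n := by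
          rw [Real.sqrt_mul hc0.le]
          simp only [Finset.sum_const, Finset.card_univ, Fintype.card_fin, nsmul_eq_mul]
          rw [div_div]
          ring
      _ ≤ 2 / √c0 / √(n : ℝ) + 2 * (d : ℝ) ^ 2 * C / √(n : ℝ) := by
          apply add_le_add le_rfl
          apply div_le_div_of_nonneg_left (by positivity) hsn0
          calc √(n : ℝ) ≤ √(n : ℝ) * √(n : ℝ) := by nlinarith
            _ = n := Real.mul_self_sqrt hn0.le
      _ = (2 / √c0 + 2 * (d : ℝ) ^ 2 * C) / √(n : ℝ) := by ring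

end BKS

open BKS in
theorem bk_smooth (h1 : S_A1) (h2 : S_A2) (hFG : S_FG) (hMX : S_MX) (hSM : S_SM1)
    (hPATH : S_PATH) (hMATCH : S_MATCH) : S_SMOOTH := by
  intro d μ hd hμ hirr
  have hdR : (2 : ℝ) ≤ d := by exact_mod_cast hd
  obtain ⟨α, δ0, CF, hα, hδ0, hCF, hfg⟩ := hFG d μ hd hμ hirr
  obtain ⟨C1, hC1, hswap⟩ := one_swap h1 h2 hMX hSM d hd α hα
  refine ⟨8 * d + C1 + CF, δ0, by positivity, hδ0, ?_⟩
  intro n k hk1 hkn hkd c c' hc hc' hcnt f hf
  set m := ⌊1 / ((k : ℝ) / n)⌋₊ with hm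
  set L := ell (cnt c Prod.fst) (cnt c' Prod.fst) with hL
  have hL0 : 0 ≤ L := ell_nonneg _ _
  have hn1 : 1 ≤ n := hk1.trans hkn
  have hnR : (1 : ℝ) ≤ n := by exact_mod_cast hn1
  have hn0 : (0 : ℝ) < n := by linarith
  have hk0 : (0 : ℝ) < k := by exact_mod_cast hk1
  have hsn : (1 : ℝ) ≤ √(n : ℝ) := by
    rw [show (1 : ℝ) = √1 from Real.sqrt_one.symm]
    exact Real.sqrt_le_sqrt hnR
  have hsn0 : 0 < √(n : ℝ) := by linarith
  have hss : √(n : ℝ) * √(n : ℝ) = n := Real.mul_self_sqrt hn0.le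
  obtain ⟨w, hw0, hw1, -, hwE⟩ := h1 d n k μ hμ hkn m
  -- trivial bound
  have htriv : |E μ k m (fun u => f (cnt c u)) - E μ k m (fun u => f (cnt c' u))| ≤ 1 := by
    rw [hwE, hwE, ← Finset.sum_sub_distrib]
    refine (Finset.abs_sum_le_sum_abs _ _).trans ?_
    rw [← hw1]
    refine Finset.sum_le_sum (fun u _ => ?_)
    rw [← mul_sub, abs_mul, abs_of_nonneg (hw0 u)]
    have e1 := hf (cnt c u)
    have e2 := hf (cnt c' u)
    have e3 : |f (cnt c u) - f (cnt c' u)| ≤ 1 := abs_le.2 ⟨by linarith, by linarith⟩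
    calc w u * |f (cnt c u) - f (cnt c' u)| ≤ w u * 1 := mul_le_mul_of_nonneg_left e3 (hw0 u)
      _ = w u := mul_one _
  have hterm1 : 0 ≤ (8 * d + C1 + CF) * L / √(n : ℝ) := by positivity
  have hterm2 : 0 ≤ (8 * d + C1 + CF) * ((k : ℝ) / n + 1 / n) := by positivity
  by_cases hn8 : n < 8 * d
  · refine htriv.trans ?_
    have e1 : (n : ℝ) ≤ 8 * d := by exact_mod_cast hn8.le
    have e2 : 1 ≤ (8 * (d : ℝ)) * (1 / n) := by
      rw [mul_one_div, le_div_iff₀ hn0]; linarith
    have e3 : (8 * (d : ℝ)) * (1 / n) ≤ (8 * d + C1 + CF) * ((k : ℝ) / n + 1 / n) := by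
      apply mul_le_mul
      · linarith
      · have : 0 ≤ (k : ℝ) / n := by positivity
        linarith
      · positivity
      · positivity
    linarith
  by_cases hLn : (n : ℝ) / (8 * d) < L
  · refine htriv.trans ?_
    have e1 : (n : ℝ) ≤ 8 * d * L := by
      have := (div_lt_iff₀ (show (0 : ℝ) < 8 * d by positivity)).1 hLn
      linarith
    have e2 : 1 ≤ (8 * (d : ℝ)) * L / √(n : ℝ) := by
      rw [le_div_iff₀ hsn0]
      nlinarith
    have e3 : (8 * (d : ℝ)) * L / √(n : ℝ) ≤ (8 * d + C1 + CF) * L / √(n : ℝ) := by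
      apply div_le_div_of_nonneg_right _ hsn0.le
      apply mul_le_mul_of_nonneg_right _ hL0
      linarith
    linarith
  push Not at hn8 hLn
  -- the path
  obtain ⟨c1, c1', hB1, hB1', hcc1, hcc1', hdif⟩ := hMATCH d n c c' hc hc'
  obtain ⟨N, s, hN, hs0, hsN, hs1, hs2⟩ := hPATH d n c1 c1' hB1 hB1'
  have hE1 : E μ k m (fun u => f (cnt c u)) = E μ k m (fun u => f (cnt c1 u)) :=
    (h2 d n k μ m).2 f c c1 hcc1.symm
  have hE2 : E μ k m (fun u => f (cnt c' u)) = E μ k m (fun u => f (cnt c1' u)) :=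
    (h2 d n k μ m).2 f c' c1' hcc1'.symm
  -- the number of balls of each colour in each urn along the path
  have hcnts : ∀ t, t ≤ N → ∀ i j, 3 * (n : ℝ) / (8 * d) ≤ cnt (s t) Prod.fst i j := by
    intro t ht i j
    have e1 := hcnt i j
    rw [← hcc1'] at e1
    have e2 : cnt c1' Prod.fst i j ≤ cnt (s t) Prod.fst i j + dif c1 c1' := by
      unfold cnt dif
      refine (Finset.card_le_card (t := (univ.filter fun b : Ball d n => b.1 = i ∧ s t b = j) ∪
        (univ.filter fun b => c1 b ≠ c1' b)) ?_).trans (Finset.card_union_le _ _)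
      intro b hb
      rw [mem_filter] at hb
      rw [Finset.mem_union, mem_filter, mem_filter]
      by_cases h : c1 b = c1' b
      · left
        refine ⟨mem_univ _, hb.2.1, ?_⟩
        rw [(hs1 t ht).2 b h]; exact hb.2.2
      · right
        exact ⟨mem_univ _, h⟩
    have e3 : (cnt c1' Prod.fst i j : ℝ) ≤ cnt (s t) Prod.fst i j + dif c1 c1' := by
      exact_mod_cast e2
    have e4 : (n : ℝ) / (2 * d) ≤ cnt c1' Prod.fst i j := by
      rw [div_le_iff₀ (by positivity)]; linarith
    have e5 : 3 * (n : ℝ) / (8 * d) = n / (2 * d) - n / (8 * d) := by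
      field_simp
      ring
    rw [e5]
    linarith
  -- the sum along the path
  have hpath : ∀ t, t ≤ N →
      |E μ k m (fun u => gg α u * (f (cnt (s 0) u) - f (cnt (s t) u)))| ≤ t * (C1 / √(n : ℝ)) := by
    intro t
    induction t with
    | zero =>
      intro _
      rw [hwE]
      simp
    | succ t ih =>
      intro ht
      obtain ⟨b1, b2, hb, hst⟩ := hs2 t (by omega)
      have e1 := ih (by omega)
      have e2 := hswap n k μ hμ hkn hn8 m (s t) b1 b2 hb (hcnts t (by omega)) f hf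
      rw [← hst] at e2
      rw [hwE] at e1 e2 ⊢
      have e3 : ∑ u, w u * (gg α u * (f (cnt (s 0) u) - f (cnt (s (t + 1)) u))) =
          ∑ u, w u * (gg α u * (f (cnt (s 0) u) - f (cnt (s t) u))) +
            ∑ u, w u * (gg α u * (f (cnt (s t) u) - f (cnt (s (t + 1)) u))) := by
        rw [← Finset.sum_add_distrib]
        exact Finset.sum_congr rfl (fun u _ => by ring)
      rw [e3]
      refine (abs_add_le _ _).trans ?_
      push_cast
      linarith
  have hmain := hpath N le_rfl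
  rw [hs0, hsN] at hmain
  have hfg' := hfg n k hk1 hkn hkd
  rw [← hm] at hfg'
  have hNL : (N : ℝ) ≤ L := by
    have : (N : ℝ) ≤ dif c1 c1' := by exact_mod_cast hN
    linarith
  rw [hE1, hE2]
  rw [hwE] at hfg' hmain
  rw [hwE, hwE]
  have e1 : ∑ u, w u * f (cnt c1 u) - ∑ u, w u * f (cnt c1' u) =
      ∑ u, w u * (gg α u * (f (cnt c1 u) - f (cnt c1' u))) +
        ∑ u, w u * ((1 - gg α u) * (f (cnt c1 u) - f (cnt c1' u))) := by
    rw [← Finset.sum_add_distrib, ← Finset.sum_sub_distrib]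
    exact Finset.sum_congr rfl (fun u _ => by ring)
  have e2 : |∑ u, w u * ((1 - gg α u) * (f (cnt c1 u) - f (cnt c1' u)))| ≤
      CF * ((k : ℝ) / n + 1 / n) := by
    refine ((Finset.abs_sum_le_sum_abs _ _).trans ?_).trans hfg'
    refine Finset.sum_le_sum (fun u _ => ?_)
    rw [abs_mul, abs_of_nonneg (hw0 u)]
    apply mul_le_mul_of_nonneg_left _ (hw0 u)
    have a1 := hf (cnt c1 u)
    have a2 := hf (cnt c1' u)
    have a3 : |f (cnt c1 u) - f (cnt c1' u)| ≤ 1 := abs_le.2 ⟨by linarith, by linarith⟩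
    by_cases hgu : ∀ i l, α * n ≤ flow u i l
    · have : gg α u = 1 := by
        unfold gg
        rw [if_pos hgu]
      rw [this, if_pos hgu, sub_self, zero_mul, abs_zero]
    · have : gg α u = 0 := by
        unfold gg
        rw [if_neg hgu]
      rw [this, if_neg hgu, sub_zero, one_mul]
      exact a3
  rw [e1]
  refine (abs_add_le _ _).trans ?_
  have e3 : (N : ℝ) * (C1 / √(n : ℝ)) ≤ L * (C1 / √(n : ℝ)) :=
    mul_le_mul_of_nonneg_right hNL (by positivity)
  have e4 : L * (C1 / √(n : ℝ)) ≤ (8 * d + C1 + CF) * L / √(n : ℝ) := by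
    rw [← mul_div_assoc]
    apply div_le_div_of_nonneg_right _ hsn0.le
    nlinarith
  have e5 : CF * ((k : ℝ) / n + 1 / n) ≤ (8 * d + C1 + CF) * ((k : ℝ) / n + 1 / n) := by
    apply mul_le_mul_of_nonneg_right _ (by positivity)
    linarith
  linarith

end Pool.Agent.H336
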