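import Pool.Agent.H925.InfBase

/-!
# One shearing step at infinity (subtask INF 2/5 of helper925)
-/

set_option autoImplicit false

open Finset

namespace Pool.Agent.H336.IS

open Pool.Agent.H925

section aux

variable {K : Type} [Field K] {r : ℕ}

theorem map_C_mul (V W : Matrix (Fin r) (Fin r) K) :
    (V * W).map (Polynomial.C : K → Polynomial K) =
      V.map (Polynomial.C : K → Polynomial K) * W.map (Polynomial.C : K → Polynomial K) := by
  exact Matrix.map_mul (f := (Polynomial.C : K →+* Polynomial K))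

theorem map_C_one :
    (1 : Matrix (Fin r) (Fin r) K).map (Polynomial.C : K → Polynomial K) = 1 := by
  exact Matrix.map_one _ (map_zero _) (map_one _)

theorem deriv_mul (S T : Matrix (Fin r) (Fin r) (Polynomial K)) :
    (S * T).map Polynomial.derivative =
      S.map Polynomial.derivative * T + S * T.map Polynomial.derivative := by
  ext1 i j
  simp only [Matrix.map_apply, Matrix.mul_apply, Matrix.add_apply, map_sum,
    Polynomial.derivative_mul, Finset.sum_add_distrib]

theorem deriv_C (V : Matrix (Fin r) (Fin r) K) :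
    (V.map (Polynomial.C : K → Polynomial K)).map Polynomial.derivative = 0 := by
  ext1 i j
  simp

/-- coefficient matrices of `v N w` -/
theorem coeff_conj (V W : Matrix (Fin r) (Fin r) K) (N : Matrix (Fin r) (Fin r) (Polynomial K))
    (n : ℕ) :
    (V.map (Polynomial.C : K → Polynomial K) * N * W.map (Polynomial.C : K → Polynomial K)).map
      (fun a => a.coeff n) = V * (N.map fun a => a.coeff n) * W := by
  ext1 i j
  simp only [Matrix.map_apply, Matrix.mul_apply, Polynomial.finsetSum_coeff,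
    Polynomial.coeff_mul_C, Polynomial.coeff_C_mul]

theorem degree_conj (V W : Matrix (Fin r) (Fin r) K) (N : Matrix (Fin r) (Fin r) (Polynomial K))
    (n : ℕ) (h : ∀ i j, (N i j).natDegree ≤ n) (i j : Fin r) :
    ((V.map (Polynomial.C : K → Polynomial K) * N * W.map (Polynomial.C : K → Polynomial K))
      i j).natDegree ≤ n := by
  rw [Polynomial.natDegree_le_iff_coeff_eq_zero]
  intro N' hN'
  have h1 := congrFun (congrFun (coeff_conj V W N N') i) j
  rw [Matrix.map_apply] at h1
  rw [h1]
  have h2 : (N.map fun a => a.coeff N') = 0 := by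
    ext1 a b
    exact Polynomial.coeff_eq_zero_of_natDegree_lt (lt_of_le_of_lt (h a b) hN')
  rw [h2]
  simp

theorem gauge_const (D : ℕ) (A T T' : Matrix (Fin r) (Fin r) (Polynomial K))
    (V W : Matrix (Fin r) (Fin r) K) :
    gaugeI D A (V.map (Polynomial.C : K → Polynomial K) * T)
      (T' * W.map (Polynomial.C : K → Polynomial K)) =
    V.map (Polynomial.C : K → Polynomial K) * gaugeI D A T T' *
      W.map (Polynomial.C : K → Polynomial K) := by
  unfold gaugeI
  rw [deriv_mul, deriv_C, Matrix.zero_mul, zero_add, Matrix.mul_add, Matrix.add_mul,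
    Matrix.mul_smul, Matrix.smul_mul]
  simp only [Matrix.mul_assoc]

/-- the diagonal matrix with `x` at `i₀` and `1` otherwise -/
noncomputable def sh (i₀ : Fin r) : Matrix (Fin r) (Fin r) (Polynomial K) :=
  Matrix.diagonal fun i => if i = i₀ then Polynomial.X else 1

/-- the diagonal matrix with `1` at `i₀` and `x` otherwise -/
noncomputable def sh' (i₀ : Fin r) : Matrix (Fin r) (Fin r) (Polynomial K) :=
  Matrix.diagonal fun i => if i = i₀ then 1 else Polynomial.X

theorem sh_mul (i₀ : Fin r) :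
    sh (K := K) i₀ * sh' i₀ = Matrix.diagonal fun _ => Polynomial.X := by
  rw [sh, sh', Matrix.diagonal_mul_diagonal]
  congr 1
  funext i
  split_ifs <;> simp

theorem sh'_mul (i₀ : Fin r) :
    sh' (K := K) i₀ * sh i₀ = Matrix.diagonal fun _ => Polynomial.X := by
  rw [sh, sh', Matrix.diagonal_mul_diagonal]
  congr 1
  funext i
  split_ifs <;> simp

theorem diag_smul (a : Polynomial K) :
    (Matrix.diagonal fun _ => a : Matrix (Fin r) (Fin r) (Polynomial K)) = a • 1 := by
  rw [← Matrix.diagonal_one, Matrix.smul_eq_diagonal_mul, Matrix.diagonal_mul_diagonal]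
  simp

theorem gauge_mul (D : ℕ) (A T T' S S' : Matrix (Fin r) (Fin r) (Polynomial K)) :
    gaugeI D A (S * T) (T' * S') =
      ((D : Polynomial K) * (Polynomial.X * (Polynomial.X - 1))) •
        (S.map Polynomial.derivative * (T * T') * S') + S * gaugeI D A T T' * S' := by
  unfold gaugeI
  rw [deriv_mul, Matrix.add_mul, smul_add, Matrix.mul_add, Matrix.add_mul, Matrix.mul_smul,
    Matrix.smul_mul, add_assoc]
  simp only [Matrix.mul_assoc]

theorem deriv_sh (i₀ : Fin r) : (sh (K := K) i₀).map Polynomial.derivative * sh' i₀ =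
    Matrix.diagonal fun i => if i = i₀ then 1 else 0 := by
  rw [sh, sh', Matrix.diagonal_map (map_zero _), Matrix.diagonal_mul_diagonal]
  congr 1
  funext i
  by_cases hi : i = i₀
  · simp [hi]
  · simp [hi]

theorem gauge_shear (D m : ℕ) (A T T' : Matrix (Fin r) (Fin r) (Polynomial K)) (i₀ : Fin r)
    (h : T * T' = Matrix.diagonal fun _ => Polynomial.X ^ m) (i j : Fin r) :
    gaugeI D A (sh i₀ * T) (T' * sh' i₀) i j =
      (if i = i₀ then Polynomial.X else 1) * gaugeI D A T T' i j *
        (if j = i₀ then 1 else Polynomial.X) +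
      if i = i₀ ∧ j = i₀ then (D : Polynomial K) * Polynomial.X ^ (m + 1) * (Polynomial.X - 1)
        else 0 := by
  have h1 : gaugeI D A (sh i₀ * T) (T' * sh' i₀) =
      ((D : Polynomial K) * (Polynomial.X * (Polynomial.X - 1)) * Polynomial.X ^ m) •
        (Matrix.diagonal fun i => if i = i₀ then 1 else 0) +
          sh i₀ * gaugeI D A T T' * sh' i₀ := by
    rw [gauge_mul, h, diag_smul, Matrix.mul_smul, Matrix.smul_mul, Matrix.mul_one, deriv_sh,
      smul_smul]
  rw [h1, Matrix.add_apply, Matrix.smul_apply, Matrix.diagonal_apply, smul_eq_mul]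
  have h2 : (sh i₀ * gaugeI D A T T' * sh' i₀ : Matrix (Fin r) (Fin r) (Polynomial K)) i j =
      (if i = i₀ then Polynomial.X else 1) * gaugeI D A T T' i j *
        (if j = i₀ then 1 else Polynomial.X) := by
    rw [sh, sh', Matrix.mul_diagonal, Matrix.diagonal_mul]
  rw [h2, add_comm]
  congr 1
  by_cases hi : i = i₀
  · by_cases hj : j = i₀
    · rw [if_pos (hi.trans hj.symm), if_pos hi, if_pos ⟨hi, hj⟩]
      ring
    · rw [if_neg (show ¬ (i = j) from fun e => hj (e ▸ hi)),
        if_neg (show ¬ (i = i₀ ∧ j = i₀) from fun e => hj e.2), mul_zero]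
  · rw [if_neg (show ¬ (i = i₀ ∧ j = i₀) from fun e => hi e.1)]
    by_cases hij : i = j
    · rw [if_pos hij, if_neg hi, mul_zero]
    · rw [if_neg hij, mul_zero]

theorem coeff_extra (D m : ℕ) :
    ((D : Polynomial K) * Polynomial.X ^ (m + 1) * (Polynomial.X - 1)).coeff (m + 1 + 1) =
      (D : K) := by
  have h : (D : Polynomial K) * Polynomial.X ^ (m + 1) * (Polynomial.X - 1) =
      Polynomial.C (D : K) * Polynomial.X ^ (m + 1 + 1) -
        Polynomial.C (D : K) * Polynomial.X ^ (m + 1) := by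
    rw [map_natCast]
    ring
  rw [h, Polynomial.coeff_sub, Polynomial.coeff_C_mul, Polynomial.coeff_C_mul,
    Polynomial.coeff_X_pow, Polynomial.coeff_X_pow, if_pos rfl, if_neg (by omega)]
  ring

theorem natDegree_extra (D m : ℕ) :
    ((D : Polynomial K) * Polynomial.X ^ (m + 1) * (Polynomial.X - 1)).natDegree ≤ m + 2 := by
  have h : (D : Polynomial K) * Polynomial.X ^ (m + 1) * (Polynomial.X - 1) =
      Polynomial.C (D : K) * Polynomial.X ^ (m + 1) * (Polynomial.X - 1) := by
    rw [map_natCast]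
  rw [h]
  compute_degree

theorem deg_entry (D m : ℕ) (i₀ i j : Fin r) (N : Polynomial K) (hN : N.natDegree ≤ m + 1)
    (h0 : i = i₀ → j ≠ i₀ → N.coeff (m + 1) = 0) :
    ((if i = i₀ then Polynomial.X else 1) * N * (if j = i₀ then 1 else Polynomial.X) +
      if i = i₀ ∧ j = i₀ then (D : Polynomial K) * Polynomial.X ^ (m + 1) * (Polynomial.X - 1)
        else 0).natDegree ≤ m + 2 := by
  have hX : (Polynomial.X : Polynomial K).natDegree ≤ 1 := Polynomial.natDegree_X_le
  by_cases hi : i = i₀
  · by_cases hj : j = i₀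
    · rw [if_pos hi, if_pos hj, if_pos ⟨hi, hj⟩, mul_one]
      refine Polynomial.natDegree_add_le_of_degree_le ?_ (natDegree_extra D m)
      exact Polynomial.natDegree_mul_le.trans (by omega)
    · rw [if_pos hi, if_neg hj, if_neg (show ¬ (i = i₀ ∧ j = i₀) from fun e => hj e.2), add_zero]
      have hN' : N.natDegree ≤ m := by
        rw [Polynomial.natDegree_le_iff_coeff_eq_zero]
        intro k hk
        rcases Nat.lt_or_ge (m + 1) k with h1 | h1
        · exact Polynomial.coeff_eq_zero_of_natDegree_lt (lt_of_le_of_lt hN h1)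
        · have : k = m + 1 := by omega
          rw [this]
          exact h0 hi hj
      have h2 : (Polynomial.X * N).natDegree ≤ m + 1 :=
        Polynomial.natDegree_mul_le.trans (by omega)
      exact Polynomial.natDegree_mul_le.trans (by omega)
  · rw [if_neg hi, if_neg (show ¬ (i = i₀ ∧ j = i₀) from fun e => hi e.1), add_zero, one_mul]
    by_cases hj : j = i₀
    · rw [if_pos hj, mul_one]
      omega
    · rw [if_neg hj]
      exact Polynomial.natDegree_mul_le.trans (by omega)

end aux

theorem t_SHEAR (hrow : S_DETROW) : S_SHEAR := by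
  intro K _ r D m A T T' μ hT hT' hdeg hroot
  -- a left eigenvector
  obtain ⟨ℓ, hℓ0, hℓ⟩ : ∃ v : Fin r → K, v ≠ 0 ∧
      Matrix.vecMul v (Matrix.scalar _ μ - leadM D m A T T') = 0 := by
    apply Matrix.exists_vecMul_eq_zero_iff.mpr
    rw [← Matrix.eval_charpoly]
    exact hroot
  have hℓ1 : Matrix.vecMul ℓ (leadM D m A T T') = μ • ℓ := by
    rw [Matrix.vecMul_sub, sub_eq_zero] at hℓ
    rw [← hℓ]
    funext j
    simp [Matrix.scalar_apply, Matrix.vecMul_diagonal, mul_comm]
  obtain ⟨i₀, hi₀⟩ : ∃ i₀, ℓ i₀ ≠ 0 := Function.ne_iff.mp hℓ0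
  set V : Matrix (Fin r) (Fin r) K := Matrix.updateRow 1 i₀ ℓ with hV
  have hdet : V.det = ℓ i₀ := by
    have h1 := Matrix.det_updateRow_sum (1 : Matrix (Fin r) (Fin r) K) i₀ ℓ
    have h2 : (∑ k, ℓ k • (1 : Matrix (Fin r) (Fin r) K) k) = ℓ := by
      funext j
      simp [Finset.sum_apply, Matrix.one_apply]
    rw [h2] at h1
    rw [hV, h1]
    simp
  have hunit : IsUnit V.det := by
    rw [hdet]
    exact isUnit_iff_ne_zero.mpr hi₀
  have hVW : V * V⁻¹ = 1 := Matrix.mul_nonsing_inv V hunit
  have hWV : V⁻¹ * V = 1 := Matrix.nonsing_inv_mul V hunit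
  set v := V.map (Polynomial.C : K → Polynomial K) with hv
  set w := V⁻¹.map (Polynomial.C : K → Polynomial K) with hw
  have hvw : v * w = 1 := by rw [hv, hw, ← map_C_mul, hVW, map_C_one]
  have hwv : w * v = 1 := by rw [hv, hw, ← map_C_mul, hWV, map_C_one]
  have hT2 : (v * T) * (T' * w) = Matrix.diagonal fun _ => Polynomial.X ^ m := by
    rw [Matrix.mul_assoc, ← Matrix.mul_assoc T, hT, diag_smul, Matrix.smul_mul, Matrix.one_mul,
      Matrix.mul_smul, hvw]
  have hT2' : (T' * w) * (v * T) = Matrix.diagonal fun _ => Polynomial.X ^ m := by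
    rw [Matrix.mul_assoc, ← Matrix.mul_assoc w, hwv, Matrix.one_mul, hT']
  set N₁ := gaugeI D A (v * T) (T' * w) with hN₁
  have hN₁' : N₁ = v * gaugeI D A T T' * w := gauge_const D A T T' V V⁻¹
  have hdeg₁ : ∀ i j, (N₁ i j).natDegree ≤ m + 1 := by
    intro i j
    rw [hN₁']
    exact degree_conj V V⁻¹ _ (m + 1) hdeg i j
  set L₁ : Matrix (Fin r) (Fin r) K := V * leadM D m A T T' * V⁻¹ with hL₁
  have hco : ∀ i j, (N₁ i j).coeff (m + 1) = L₁ i j := by
    intro i j
    have h1 := congrFun (congrFun (coeff_conj V V⁻¹ (gaugeI D A T T') (m + 1)) i) j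
    rw [← hv, ← hw, ← hN₁', Matrix.map_apply] at h1
    rw [h1]
    rfl
  have hrowL : ∀ j, L₁ i₀ j = if j = i₀ then μ else 0 := by
    intro j
    have h1 : L₁ i₀ j = Matrix.vecMul (Matrix.vecMul (V i₀) (leadM D m A T T')) V⁻¹ j := by
      rw [hL₁, Matrix.mul_assoc, Matrix.vecMul_vecMul]
      rfl
    have h2 : V i₀ = ℓ := by rw [hV]; exact Matrix.updateRow_self
    have h3 : Matrix.vecMul (V i₀) V⁻¹ j = (1 : Matrix (Fin r) (Fin r) K) i₀ j := by
      rw [← hVW]
      rfl
    rw [h1, h2, hℓ1, Matrix.smul_vecMul, Pi.smul_apply, ← h2, h3, Matrix.one_apply, smul_eq_mul]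
    by_cases hj : j = i₀
    · rw [if_pos hj.symm, if_pos hj, mul_one]
    · rw [if_neg (fun e => hj e.symm), if_neg hj, mul_zero]
  refine ⟨sh i₀ * (v * T), (T' * w) * sh' i₀, ?_, ?_, ?_, ?_⟩
  · rw [Matrix.mul_assoc, ← Matrix.mul_assoc (v * T), hT2, diag_smul, Matrix.smul_mul,
      Matrix.one_mul, Matrix.mul_smul, sh_mul, diag_smul, smul_smul, diag_smul, pow_succ]
  · rw [Matrix.mul_assoc, ← Matrix.mul_assoc (sh' i₀), sh'_mul, diag_smul, Matrix.smul_mul,
      Matrix.one_mul, Matrix.mul_smul, hT2', diag_smul, smul_smul, diag_smul, pow_succ']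
  · intro i j
    rw [gauge_shear D m A _ _ i₀ hT2 i j, ← hN₁]
    exact deg_entry D m i₀ i j (N₁ i j) (hdeg₁ i j) (fun h1 h2 => by
      rw [hco, h1, hrowL, if_neg h2])
  · have hch : L₁.charpoly = (leadM D m A T T').charpoly := by
      rw [hL₁, Matrix.charpoly_mul_comm, ← Matrix.mul_assoc, hWV, Matrix.one_mul]
    have key := hrow K r L₁ (leadM D (m + 1) A (sh i₀ * (v * T)) ((T' * w) * sh' i₀)) i₀ μ (μ + D)
      hrowL ?_ ?_
    · rw [hch] at key
      exact key
    · intro i
      rw [leadM, Matrix.map_apply, gauge_shear D m A _ _ i₀ hT2 i i₀, ← hN₁]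
      by_cases hi : i = i₀
      · rw [if_pos hi, if_pos rfl, if_pos ⟨hi, rfl⟩, if_pos hi, Polynomial.coeff_add, mul_one,
          Polynomial.coeff_X_mul, hco, hi, hrowL, if_pos rfl, coeff_extra]
      · rw [if_neg hi, if_pos rfl, if_neg (show ¬ (i = i₀ ∧ i₀ = i₀) from fun e => hi e.1),
          if_neg hi, add_zero, mul_one, one_mul]
        exact Polynomial.coeff_eq_zero_of_natDegree_lt (lt_of_le_of_lt (hdeg₁ i i₀) (by omega))
    · intro i j hi hj
      rw [leadM, Matrix.map_apply, gauge_shear D m A _ _ i₀ hT2 i j, ← hN₁, if_neg hi, if_neg hj,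
        if_neg (show ¬ (i = i₀ ∧ j = i₀) from fun e => hi e.1), add_zero, one_mul,
        Polynomial.coeff_mul_X, hco]

end Pool.Agent.H336.IS
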